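import Pool.Agent.K1H76.OM.Stm
import Pool.Agent.H807R2.DavIface
import Pool.Agent.H705R2.MLogF

/-! Project OM: the Moebius sums over the odd numbers. -/

namespace Pool.Agent.K1H96.OM

open Finset Pool.Agent.K1H76.OM

theorem t_MU_of (h : Pool.Agent.H807R2.SWMu) : S_MU := by
  intro A
  obtain ⟨N₀, hN₀⟩ := h A 1
  set X0 : ℝ := max N₀ 8 with hX0
  have hX8 : (8 : ℝ) ≤ X0 := le_max_right _ _
  have hXN : (N₀ : ℝ) ≤ X0 := le_max_left _ _
  have hlX : 0 ≤ Real.log X0 := Real.log_nonneg (by linarith)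
  refine ⟨2 ^ (A + 1) + (1 + Real.log X0) ^ A, fun x hx => ?_⟩
  have hlx : 0 ≤ Real.log x := Real.log_nonneg hx
  have hpos : 0 < (1 + Real.log x) ^ A := by positivity
  have hx0 : 0 < x := by linarith
  rw [le_div_iff₀ hpos]
  by_cases hxX : x ≤ X0
  · -- small x
    have h1 : |∑ n ∈ Icc 1 ⌊x⌋₊, mo n| ≤ x := by
      calc |∑ n ∈ Icc 1 ⌊x⌋₊, mo n| ≤ ∑ n ∈ Icc 1 ⌊x⌋₊, |mo n| := abs_sum_le_sum_abs _ _
        _ ≤ ∑ n ∈ Icc 1 ⌊x⌋₊, (1 : ℝ) := by
            refine sum_le_sum fun n _ => ?_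
            simp only [mo, ArithmeticFunction.coe_mk]
            split_ifs
            · rw [← Int.cast_abs]
              exact_mod_cast ArithmeticFunction.abs_moebius_le_one
            · simp
        _ = (⌊x⌋₊ : ℝ) := by simp
        _ ≤ x := Nat.floor_le hx0.le
    calc |∑ n ∈ Icc 1 ⌊x⌋₊, mo n| * (1 + Real.log x) ^ A ≤ x * (1 + Real.log X0) ^ A := by
          gcongr
      _ ≤ (2 ^ (A + 1) + (1 + Real.log X0) ^ A) * x := by
          have : (0 : ℝ) ≤ 2 ^ (A + 1) * x := by positivity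
          linarith
  · push Not at hxX
    set N : ℕ := ⌊x⌋₊ + 1 with hN
    have hNx : x < N := by
      rw [hN]; push_cast; exact Nat.lt_floor_add_one x
    have hN2 : (N : ℝ) ≤ 2 * x := by
      have := Nat.floor_le hx0.le
      rw [hN]; push_cast; linarith
    have hNN : N₀ ≤ N := by
      have : (N₀ : ℝ) < N := by linarith
      exact_mod_cast this.le
    have hlog8 : (2 : ℝ) ≤ Real.log 8 := by
      have h2 := Real.log_two_gt_d9
      have : Real.log 8 = 3 * Real.log 2 := by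
        rw [show (8 : ℝ) = 2 ^ 3 by norm_num, Real.log_pow]; norm_num
      rw [this]; linarith
    have hlogx : (2 : ℝ) ≤ Real.log x :=
      hlog8.trans (Real.log_le_log (by norm_num) (by linarith))
    have hlogN : Real.log x ≤ Real.log N := Real.log_le_log hx0 hNx.le
    have h1 := hN₀ N hNN 2 1 (by norm_num) (by rw [pow_one]; push_cast; linarith)
    have hsum : ∑ n ∈ Icc 1 ⌊x⌋₊, mo n = ∑ n ∈ (range N).filter (fun n => n % 2 = 1),
        ((ArithmeticFunction.moebius n : ℤ) : ℝ) := by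
      have e1 : (range N).filter (fun n => n % 2 = 1) = (Icc 1 ⌊x⌋₊).filter (fun n => Odd n) := by
        ext n
        simp only [mem_filter, mem_range, mem_Icc, hN, Nat.odd_iff]
        omega
      rw [e1, sum_filter]
      rfl
    rw [← hsum] at h1
    have h2 : (0 : ℝ) < Real.log N := by linarith
    have h3 : (1 + Real.log x) ^ A ≤ (2 * Real.log N) ^ A := by gcongr; linarith
    calc |∑ n ∈ Icc 1 ⌊x⌋₊, mo n| * (1 + Real.log x) ^ A
        ≤ (N / Real.log N ^ A) * (2 * Real.log N) ^ A := by gcongr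
      _ = 2 ^ A * N := by
          rw [mul_pow]; field_simp
      _ ≤ 2 ^ A * (2 * x) := by gcongr
      _ = 2 ^ (A + 1) * x := by ring
      _ ≤ (2 ^ (A + 1) + (1 + Real.log X0) ^ A) * x := by
          have : (0 : ℝ) ≤ (1 + Real.log X0) ^ A * x := by positivity
          linarith

theorem t_MU : S_MU := t_MU_of Pool.Agent.H705R2.MSW.swMu

end Pool.Agent.K1H96.OM
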